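import Mathlib

open Set Filter Topology LinearPMap
open scoped InnerProductSpace

namespace Pool.Agent.Results.MP_790317_an.Exists

variable {𝕜 : Type} [RCLike 𝕜]

noncomputable def a (j : ℕ) : ℝ := √(1 / 2 / 2 ^ j)

theorem a_pos (j : ℕ) : 0 < a j := Real.sqrt_pos.2 (by positivity)

theorem a_sq (j : ℕ) : a j * a j = 1 / 2 / 2 ^ j := Real.mul_self_sqrt (by positivity)

theorem a_le (j : ℕ) : a j ≤ 1 := Real.sqrt_le_one.2 (by
  rw [div_le_one (by positivity)]; linarith [one_le_pow₀ (n := j) (one_le_two (α := ℝ))])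

theorem data (𝕜 M : Type) [RCLike 𝕜] [NormedAddCommGroup M] [InnerProductSpace 𝕜 M]
    [CompleteSpace M] :
    ∃ (R : lp (fun _ : ℕ => M) 2 →L[𝕜] lp (fun _ : ℕ => M) 2) (V : M →L[𝕜] lp (fun _ : ℕ => M) 2),
      (∀ x y, ⟪R x, y⟫_𝕜 = ⟪x, R y⟫_𝕜) ∧ (∀ x, R x = 0 → x = 0) ∧
      (∀ x y, ⟪V x, V y⟫_𝕜 = ⟪x, y⟫_𝕜) ∧ ∀ l w, V l = R w → l = 0 := by
  have hs : HasSum (fun j => a j * a j) 1 := by simpa only [a_sq] using hasSum_geometric_two' 1
  have hn : ∀ (l : M) j, ‖(a j : 𝕜) • l‖ ^ (2 : ENNReal).toReal = a j * a j * ‖l‖ ^ 2 :=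
    fun l j => by
      rw [norm_smul, RCLike.norm_ofReal, abs_of_pos (a_pos j)]
      simp only [ENNReal.toReal_ofNat, Real.rpow_ofNat]; ring
  let V0 : M →ₗ[𝕜] lp (fun _ : ℕ => M) 2 :=
    { toFun := fun l => ⟨fun j => (a j : 𝕜) • l, memℓp_gen (by
        simpa only [hn] using hs.summable.mul_right _)⟩
      map_add' := fun x y => lp.ext (funext fun j => smul_add _ _ _)
      map_smul' := fun c x => lp.ext (funext fun j => smul_comm _ _ _) }
  have hV : ∀ x y, ⟪V0 x, V0 y⟫_𝕜 = ⟪x, y⟫_𝕜 := fun x y => by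
    refine (lp.hasSum_inner _ _).unique ?_
    have := ((RCLike.ofRealCLM (K := 𝕜)).hasSum hs).mul_right ⟪x, y⟫_𝕜
    simp only [RCLike.ofRealCLM_apply, RCLike.ofReal_one, one_mul] at this
    have e : ∀ j, ⟪V0 x j, V0 y j⟫_𝕜 = ((a j * a j : ℝ) : 𝕜) * ⟪x, y⟫_𝕜 := fun j => by
      show ⟪(a j : 𝕜) • x, (a j : 𝕜) • y⟫_𝕜 = _
      simp [inner_smul_left, inner_smul_right, mul_assoc]
    simpa only [e] using this
  refine ⟨lp.mapCLM 2 (fun j => (a j : 𝕜) • ContinuousLinearMap.id 𝕜 M) zero_le_one fun j => ?_,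
    (V0.isometryOfInner hV).toContinuousLinearMap, fun x y => ?_, fun x h => ?_, hV,
    fun l w h => ?_⟩
  · rw [norm_smul, RCLike.norm_ofReal, abs_of_pos (a_pos j)]
    exact mul_le_one₀ (a_le j) (norm_nonneg _) ContinuousLinearMap.norm_id_le
  · rw [lp.inner_eq_tsum, lp.inner_eq_tsum]
    refine tsum_congr fun j => ?_
    show ⟪(a j : 𝕜) • x j, y j⟫_𝕜 = ⟪x j, (a j : 𝕜) • y j⟫_𝕜
    simp [inner_smul_left, inner_smul_right]
  · refine lp.ext (funext fun j => ?_)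
    have : (a j : 𝕜) • x j = 0 := congrFun (congrArg Subtype.val h) j
    exact (smul_eq_zero.1 this).resolve_left (by simpa using (a_pos j).ne')
  · have h1 : ∀ j, w j = l := fun j => by
      have : (a j : 𝕜) • l = (a j : 𝕜) • w j := congrFun (congrArg Subtype.val h) j
      exact (smul_right_injective _ (by simpa using (a_pos j).ne') this).symm
    have h2 := (w.2.summable (by norm_num)).tendsto_atTop_zero
    simp only [h1] at h2
    simpa using tendsto_nhds_unique tendsto_const_nhds h2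

section
variable {E F : Type} [NormedAddCommGroup E] [InnerProductSpace 𝕜 E] [NormedAddCommGroup F]
  [InnerProductSpace 𝕜 F]

theorem mem_neg (f : E →ₗ.[𝕜] F) (x : E) (y : F) : (x, y) ∈ (-f).graph ↔ (x, -y) ∈ f.graph := by
  simp only [mem_graph_iff, LinearPMap.neg_apply, neg_eq_iff_eq_neg]; rfl

theorem clos {f : E →ₗ.[𝕜] F} (h : f.IsClosed) : f.closure = f :=
  eq_of_eq_graph (by
    rw [← h.isClosable.graph_closure_eq_closure_graph]; exact h.submodule_topologicalClosure_eq)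

theorem mem_adj [CompleteSpace E] {f : E →ₗ.[𝕜] F} (h : Dense (f.domain : Set E)) (y : F) (z : E) :
    (y, z) ∈ f†.graph ↔ ∀ c d, (c, d) ∈ f.graph → ⟪d, y⟫_𝕜 = ⟪c, z⟫_𝕜 := by
  simp only [adjoint_graph_eq_graph_adjoint h, Submodule.mem_adjoint_iff, sub_eq_zero]

theorem dense_of [CompleteSpace E] (U : Submodule 𝕜 E) (h : ∀ y, (∀ x ∈ U, ⟪x, y⟫_𝕜 = 0) → y = 0) :
    Dense (U : Set E) := by
  rw [Submodule.dense_iff_topologicalClosure_eq_top, Submodule.topologicalClosure_eq_top_iff,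
    Submodule.eq_bot_iff]
  exact h
end

section
variable {E F X Y : Type} [NormedAddCommGroup E] [InnerProductSpace 𝕜 E] [NormedAddCommGroup F]
  [InnerProductSpace 𝕜 F] [NormedAddCommGroup X] [InnerProductSpace 𝕜 X] [NormedAddCommGroup Y]
  [InnerProductSpace 𝕜 Y]

/-- densely defined -/
def DenseDom (A : E →ₗ.[𝕜] F) : Prop := Dense (A.domain : Set E)

/-- closed range -/
def ClosedRan (A : E →ₗ.[𝕜] F) : Prop := _root_.IsClosed (range A)

/-- the inclusion of `j ∘ S` in `T ∘ i` -/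
def Incl (S : E →ₗ.[𝕜] F) (T : X →ₗ.[𝕜] Y) (i : E →ₗᵢ[𝕜] X) (j : F →ₗᵢ[𝕜] Y) : Prop :=
  ∀ x : S.domain, (i x, j (S x)) ∈ T.graph

/-- closed-range extension of the pair `(A₀, B₀)` -/
def HasExt (A₀ : E →ₗ.[𝕜] F) (B₀ : F →ₗ.[𝕜] E) : Prop :=
  ∃ (X Y : Type) (_ : NormedAddCommGroup X) (_ : InnerProductSpace 𝕜 X) (_ : CompleteSpace X)
    (_ : NormedAddCommGroup Y) (_ : InnerProductSpace 𝕜 Y) (_ : CompleteSpace Y)
    (A : X →ₗ.[𝕜] Y) (ιX : E →ₗᵢ[𝕜] X) (ιY : F →ₗᵢ[𝕜] Y),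
    DenseDom A ∧ A.IsClosed ∧ ClosedRan A ∧ Incl A₀ A ιX ιY ∧ Incl B₀ (-A†) ιY ιX
end

theorem result (𝕜 : Type) [RCLike 𝕜] :
    ∃ (H₀ H₁ : Type) (_ : NormedAddCommGroup H₀) (_ : InnerProductSpace 𝕜 H₀) (_ : CompleteSpace H₀)
      (_ : NormedAddCommGroup H₁) (_ : InnerProductSpace 𝕜 H₁) (_ : CompleteSpace H₁)
      (Ac : H₀ →ₗ.[𝕜] H₁) (Bc : H₁ →ₗ.[𝕜] H₀),
      DenseDom Ac ∧ DenseDom Bc ∧ Ac ≤ -Bc† ∧ Ac.IsClosable ∧ Bc.IsClosable ∧
      HasExt Ac.closure Bc.closure ∧ ¬ ClosedRan Ac.closure ∧ ¬ ClosedRan (-(Bc.closure)†) := by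
  simp only [HasExt, DenseDom, ClosedRan, Incl]
  obtain ⟨C, U, C1, C2, U1, U2⟩ := data 𝕜 𝕜
  obtain ⟨R, V, R1, R2, V1, V2⟩ := data 𝕜 (lp (fun _ : ℕ => 𝕜) 2)
  set L := lp (fun _ : ℕ => 𝕜) 2
  set K := lp (fun _ : ℕ => L) 2
  have hC : ¬ _root_.IsClosed (range C) := fun h => by
    have hd := dense_of (LinearMap.range C.toLinearMap) fun y hy => C2 y (by
      rw [← inner_self_eq_zero (𝕜 := 𝕜), ← C1]; exact hy _ ⟨_, rfl⟩)
    have : U 1 ∈ range C := h.closure_subset (hd _)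
    obtain ⟨w, hw⟩ := this
    exact one_ne_zero (U2 1 w hw.symm)
  let G : Submodule 𝕜 (WithLp 2 (L × K) × WithLp 2 (L × K)) :=
    { carrier := {p | p.2.fst = 0 ∧ p.1.snd = R p.2.snd}
      add_mem' := fun a b => ⟨by simp [a.1, b.1], by simp [a.2, b.2]⟩
      zero_mem' := ⟨rfl, by simp⟩
      smul_mem' := fun c _ a => ⟨by simp [a.1], by simp [a.2]⟩ }
  let G0 : Submodule 𝕜 (WithLp 2 (L × K) × WithLp 2 (L × K)) :=
    { carrier := {p | p ∈ G ∧ V.adjoint p.2.snd = C p.1.fst}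
      add_mem' := fun a b => ⟨G.add_mem a.1 b.1, by simp [a.2, b.2]⟩
      zero_mem' := ⟨G.zero_mem, by simp⟩
      smul_mem' := fun c _ a => ⟨G.smul_mem c a.1, by simp [a.2]⟩ }
  have hG' : ∀ x ∈ G, x.1 = 0 → x.2 = 0 := fun x hx h => by
    have := R2 _ (hx.2.symm.trans (by simp [h]))
    exact (WithLp.ofLp_injective 2) (Prod.ext hx.1 this)
  have hG : G.toLinearPMap.graph = G := G.toLinearPMap_graph_eq hG'
  have hG0 : G0.toLinearPMap.graph = G0 := G0.toLinearPMap_graph_eq fun x hx => hG' x hx.1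
  set A := G.toLinearPMap
  set B := G0.toLinearPMap
  have hVV : ∀ l, V.adjoint (V l) = l := fun l => ext_inner_left 𝕜 fun m => by
    rw [ContinuousLinearMap.adjoint_inner_right, V1]
  have hm : ∀ u w, V.adjoint w = C u →
      (WithLp.toLp 2 (u, R w), WithLp.toLp 2 (0, w)) ∈ B.graph := fun u w h => by
    rw [hG0]; exact ⟨⟨rfl, rfl⟩, h⟩
  have cG : _root_.IsClosed (G : Set (WithLp 2 (L × K) × WithLp 2 (L × K))) :=
    (isClosed_eq (by fun_prop) continuous_const).inter (isClosed_eq (by fun_prop) (by fun_prop))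
  have cB : B.IsClosed := by
    rw [LinearPMap.IsClosed, hG0]
    exact cG.inter (isClosed_eq (by fun_prop) (by fun_prop))
  have cB' : (-B).IsClosed := by
    have : ((-B).graph : Set _) = 
        (fun p : WithLp 2 (L × K) × WithLp 2 (L × K) => (p.1, -p.2)) ⁻¹' (B.graph : Set _) := by
      ext ⟨x, y⟩; exact mem_neg B x y
    rw [LinearPMap.IsClosed, this]
    exact _root_.IsClosed.preimage (by fun_prop) cB
  have dB : Dense (B.domain : Set (WithLp 2 (L × K))) := dense_of _ fun y hy => by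
    have h1 : ∀ u w, V.adjoint w = C u → ⟪u, y.fst⟫_𝕜 + ⟪w, R y.snd⟫_𝕜 = 0 := fun u w h => by
      rw [← R1]; exact hy _ (mem_domain_iff.2 ⟨_, hm u w h⟩)
    have h0 : V.adjoint (R y.snd - V (V.adjoint (R y.snd))) = C 0 := by simp [hVV]
    have h2 : R y.snd - V (V.adjoint (R y.snd)) = 0 := by
      have := h1 _ _ h0
      rw [inner_zero_left, zero_add] at this
      rw [← inner_self_eq_zero (𝕜 := 𝕜), inner_sub_right, this,
        ← ContinuousLinearMap.adjoint_inner_left, h0]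
      simp
    have h3 := V2 _ _ (sub_eq_zero.1 h2).symm
    rw [h3, _root_.map_zero, sub_zero] at h2
    have h4 := h1 y.fst (V (C y.fst)) (hVV _)
    rw [h2, inner_zero_right, add_zero, inner_self_eq_zero] at h4
    exact (WithLp.ofLp_injective 2) (Prod.ext h4 (R2 _ h2))
  have hBA : B.graph ≤ A.graph := by rw [hG, hG0]; exact fun _ h => h.1
  have dA : Dense (A.domain : Set (WithLp 2 (L × K))) := dB.mono (le_of_le_graph hBA).1
  have sym : ∀ c d x y, (c, d) ∈ A.graph → (x, y) ∈ A.graph → ⟪d, x⟫_𝕜 = ⟪c, y⟫_𝕜 := by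
    rw [hG]
    rintro c d x y ⟨h1, h2⟩ ⟨h3, h4⟩
    simp only [WithLp.prod_inner_apply, WithLp.ofLp_fst, WithLp.ofLp_snd] at *
    rw [h1, h2, h3, h4, R1]; simp
  refine ⟨WithLp 2 (L × K), WithLp 2 (L × K), inferInstance, inferInstance, inferInstance,
    inferInstance, inferInstance, inferInstance, B, -B, dB, dB, le_of_le_graph ?_, cB.isClosable,
    cB'.isClosable, ⟨WithLp 2 (L × K), WithLp 2 (L × K), inferInstance, inferInstance,
    inferInstance, inferInstance, inferInstance, inferInstance, A, .id, .id, dA, ?_, ?_, ?_, ?_⟩,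
    ?_, ?_⟩
  · rintro ⟨x, y⟩ h
    rw [mem_neg, mem_adj (f := -B) dB]
    intro c d h'
    rw [mem_neg] at h'
    rw [inner_neg_right, ← sym _ _ _ _ (hBA h') (hBA h), inner_neg_left, neg_neg]
  · rw [LinearPMap.IsClosed, hG]; exact cG
  · have : range A = {z | z.fst = 0} := by
      ext z
      rw [mem_range_iff, hG]
      exact ⟨fun ⟨_, h⟩ => h.1, fun h => ⟨WithLp.toLp 2 (0, R z.snd), h, rfl⟩⟩
    rw [this]
    exact isClosed_eq (by fun_prop) continuous_const
  · rw [clos cB]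
    exact fun x => hBA (B.mem_graph x)
  · rw [clos cB']
    intro y
    rw [mem_neg, mem_adj dA]
    exact fun c d h => sym _ _ _ _ h (hBA ((mem_neg B _ _).1 ((-B).mem_graph y)))
  · rw [clos cB]
    refine fun h => hC ?_
    convert h.preimage (f := fun l : L => WithLp.toLp 2 ((0 : L), V l)) (by fun_prop) using 1
    ext l
    rw [mem_preimage, mem_range_iff]
    refine ⟨fun ⟨u, hu⟩ => ⟨_, hm u _ (by rw [hVV, hu])⟩, fun ⟨x, hx⟩ => ⟨x.fst, ?_⟩⟩
    rw [hG0] at hx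
    exact hx.2.symm.trans (hVV l)
  · rw [clos cB']
    refine fun h => hC ?_
    convert h.preimage (f := fun l : L => WithLp.toLp 2 (l, (0 : K))) (by fun_prop) using 1
    ext l
    simp only [mem_preimage, mem_range_iff, mem_neg, mem_adj (f := -B) dB]
    constructor
    · rintro ⟨m, rfl⟩
      refine ⟨WithLp.toLp 2 (0, V m), fun c d h => ?_⟩
      rw [hG0] at h
      have h2 : V.adjoint (-d.snd) = C c.fst := h.2
      rw [inner_neg_right]
      simp only [WithLp.prod_inner_apply, WithLp.ofLp_fst, WithLp.ofLp_snd, inner_zero_right,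
        zero_add, add_zero]
      rw [← C1, ← h2, ContinuousLinearMap.adjoint_inner_left, inner_neg_left, neg_neg]
    · rintro ⟨y, hy⟩
      refine ⟨V.adjoint y.snd, ext_inner_left 𝕜 fun u => ?_⟩
      have := hy _ (-WithLp.toLp 2 (0, V (C u))) (by rw [neg_neg]; exact hm u _ (hVV _))
      rw [inner_neg_left, inner_neg_right, neg_inj] at this
      simp only [WithLp.prod_inner_apply, inner_zero_right, inner_zero_left, zero_add,
        add_zero] at this
      rw [← C1, ContinuousLinearMap.adjoint_inner_right]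
      exact this

end Pool.Agent.Results.MP_790317_an.Exists
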